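import Pool.Agent.Helper92.RK.Defs

/-! # RK, parts NEE and VSZ -/

set_option autoImplicit false

namespace Pool.Agent.Helper76.RK

open Finset Pool.Agent.Helper92.RK

variable {n : ℕ}

lemma pr_mono {E E' : (Fin n → Bool) → Prop} (h : ∀ x, E x → E' x) : pr E ≤ pr E' := by
  classical
  unfold pr
  refine div_le_div_of_nonneg_right ?_ (by positivity)
  have : (univ.filter E).card ≤ (univ.filter E').card := card_le_card (by
    intro x hx
    rw [mem_filter] at hx ⊢
    exact ⟨hx.1, h x hx.2⟩)
  convert (Nat.cast_le (α := ℝ)).2 this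

lemma pr_union {ι : Type} (s : Finset ι) (E : ι → (Fin n → Bool) → Prop) :
    pr (fun x => ∃ b ∈ s, E b x) ≤ ∑ b ∈ s, pr (E b) := by
  classical
  unfold pr
  rw [← Finset.sum_div]
  refine div_le_div_of_nonneg_right ?_ (by positivity)
  have h : (univ.filter (fun x => ∃ b ∈ s, E b x)).card ≤ ∑ b ∈ s, (univ.filter (E b)).card :=
    (card_le_card (t := s.biUnion fun b => univ.filter (E b)) (by
      intro x hx
      simp only [mem_filter, mem_univ, true_and, mem_biUnion] at hx ⊢
      exact hx)).trans card_biUnion_le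
  have h2 : ((univ.filter (fun x => ∃ b ∈ s, E b x)).card : ℝ) ≤
      ∑ b ∈ s, ((univ.filter (E b)).card : ℝ) := by
    exact_mod_cast h
  refine le_trans (le_of_eq ?_) h2
  congr!

theorem nee : S_NEE := by
  classical
  intro n F M δ hF hM hδ
  have h1 : pr (fun x => val F x ∧ ∀ T ∈ F, Need F δ T → ¬ Sat T x) ≤
      ∑ T ∈ F.filter (fun T => ¬ Need F δ T),
        pr (fun x => Sat T x ∧ ∀ b ∈ F, b.card < T.card → ¬ Sat b x) := by
    refine (pr_mono ?_).trans (pr_union _ _)
    rintro x ⟨⟨T, hT, hTx⟩, hx⟩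
    obtain ⟨T0, hT0, hmin⟩ := (F.filter fun T => Sat T x).exists_min_image Finset.card
      ⟨T, by simp [hT, hTx]⟩
    rw [mem_filter] at hT0
    refine ⟨T0, ?_, hT0.2, ?_⟩
    · rw [mem_filter]
      exact ⟨hT0.1, fun h => hx T0 hT0.1 h hT0.2⟩
    · intro b hb hlt hbs
      exact absurd (hmin b (by simp [hb, hbs])) (by omega)
  refine h1.trans ?_
  calc _ ≤ ∑ T ∈ F.filter (fun T => ¬ Need F δ T), δ * (1 / 2 : ℝ) ^ T.card := by
        apply sum_le_sum
        intro T hT
        rw [mem_filter] at hT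
        have := hT.2
        unfold Need at this
        exact (not_le.1 this).le
    _ ≤ ∑ T ∈ F, δ * (1 / 2 : ℝ) ^ T.card :=
        sum_le_sum_of_subset_of_nonneg (filter_subset _ _) (fun _ _ _ => by positivity)
    _ = δ * w1 F := by rw [w1, mul_sum]
    _ ≤ δ * M := by gcongr

lemma vr_card {T : Tm n} (h : Con T) : (vr T).card = T.card := by
  unfold vr
  apply card_image_of_injOn
  intro l hl l' hl' e
  exact h l hl l' hl' e

theorem vsz : S_VSZ := by
  classical
  intro k c M
  refine ⟨k * ((1 + c) + (k * (1 + c) + ⌈M * 2 ^ c⌉₊) * c), ?_⟩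
  intro n F L i hR hC hM V hV
  set m := ⌈M * 2 ^ c⌉₊ with hm
  set A := F.filter (fun a => i ∈ vr a ∧ L ≤ a.card ∧ a.card ≤ L + c) with hA
  let N : Tm n → Finset (Tm n) := fun a => F.filter fun b => (vr a ∪ vr b).card ≤ L + c
  have hR' : ∀ j : Fin n, (F.filter fun T => j ∈ vr T).card ≤ k := hR
  have hAk : A.card ≤ k := (card_le_card (fun a ha => by
      rw [hA, mem_filter] at ha
      rw [mem_filter]; exact ⟨ha.1, ha.2.1⟩)).trans (hR' i)
  have hN : ∀ a ∈ A, (N a).card ≤ k * (L + c) + m := by
    intro a ha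
    rw [hA, mem_filter] at ha
    obtain ⟨haF, hia, hLa, hac⟩ := ha
    have hva : (vr a).card = a.card := vr_card (hC a haF)
    have h1 : N a ⊆ (vr a).biUnion (fun j => F.filter fun b => j ∈ vr b) ∪
        F.filter (fun b => b.card ≤ c) := by
      intro b hb
      simp only [N, mem_filter] at hb
      by_cases hd : Disjoint (vr a) (vr b)
      · apply mem_union_right
        rw [mem_filter]
        refine ⟨hb.1, ?_⟩
        have := hb.2
        rw [card_union_of_disjoint hd, hva, vr_card (hC b hb.1)] at this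
        omega
      · apply mem_union_left
        rw [Finset.not_disjoint_iff] at hd
        obtain ⟨j, hj1, hj2⟩ := hd
        rw [mem_biUnion]
        exact ⟨j, hj1, by rw [mem_filter]; exact ⟨hb.1, hj2⟩⟩
    have h2 : (F.filter (fun b => b.card ≤ c)).card ≤ m := by
      have h3 : ((F.filter (fun b => b.card ≤ c)).card : ℝ) * (1 / 2) ^ c ≤ M := by
        calc _ = ∑ b ∈ F.filter (fun b => b.card ≤ c), (1 / 2 : ℝ) ^ c := by
              rw [sum_const, nsmul_eq_mul]
          _ ≤ ∑ b ∈ F.filter (fun b => b.card ≤ c), (1 / 2 : ℝ) ^ b.card := by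
            apply sum_le_sum
            intro b hb
            rw [mem_filter] at hb
            exact pow_le_pow_of_le_one (by norm_num) (by norm_num) hb.2
          _ ≤ ∑ b ∈ F, (1 / 2 : ℝ) ^ b.card :=
            sum_le_sum_of_subset_of_nonneg (filter_subset _ _) (fun _ _ _ => by positivity)
          _ ≤ M := hM
      have h4 : ((F.filter (fun b => b.card ≤ c)).card : ℝ) ≤ M * 2 ^ c := by
        have h5 : ((F.filter (fun b => b.card ≤ c)).card : ℝ) =
            ((F.filter (fun b => b.card ≤ c)).card : ℝ) * (1 / 2) ^ c * 2 ^ c := by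
          rw [mul_assoc, ← mul_pow]; norm_num
        rw [h5]
        gcongr
      have h6 : ((F.filter (fun b => b.card ≤ c)).card : ℝ) ≤ (m : ℝ) := h4.trans (Nat.le_ceil _)
      exact Nat.cast_le.1 h6
    calc _ ≤ _ := card_le_card h1
      _ ≤ _ := card_union_le _ _
      _ ≤ k * (L + c) + m := by
        apply Nat.add_le_add _ h2
        calc _ ≤ ∑ j ∈ vr a, (F.filter fun b => j ∈ vr b).card := card_biUnion_le
          _ ≤ ∑ j ∈ vr a, k := sum_le_sum fun j _ => hR' j
          _ = k * (vr a).card := by rw [sum_const, smul_eq_mul, mul_comm]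
          _ ≤ k * (L + c) := Nat.mul_le_mul_left _ (by omega)
  have hsub : V ⊆ A.biUnion (fun a => vr a ∪ (N a).biUnion (fun b => vr b \ vr a)) := by
    intro j hj
    obtain ⟨a, haF, b, hbF, hia, hjb, hL, hc⟩ := hV j hj
    have haA : a ∈ A := by
      rw [hA, mem_filter]
      refine ⟨haF, hia, hL, ?_⟩
      rw [← vr_card (hC a haF)]
      exact (card_le_card subset_union_left).trans hc
    rw [mem_biUnion]
    refine ⟨a, haA, ?_⟩
    by_cases hja : j ∈ vr a
    · exact mem_union_left _ hja
    · apply mem_union_right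
      rw [mem_biUnion]
      exact ⟨b, by simp only [N, mem_filter]; exact ⟨hbF, hc⟩, mem_sdiff.2 ⟨hjb, hja⟩⟩
  have hone : ∀ a ∈ A, (vr a ∪ (N a).biUnion (fun b => vr b \ vr a)).card ≤
      (L + c) + (k * (L + c) + m) * c := by
    intro a ha
    have hNa := hN a ha
    rw [hA, mem_filter] at ha
    obtain ⟨haF, hia, hLa, hac⟩ := ha
    have hva : (vr a).card = a.card := vr_card (hC a haF)
    refine (card_union_le _ _).trans (Nat.add_le_add (by omega) ?_)
    calc _ ≤ ∑ b ∈ N a, (vr b \ vr a).card := card_biUnion_le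
      _ ≤ ∑ b ∈ N a, c := by
        apply sum_le_sum
        intro b hb
        simp only [N, mem_filter] at hb
        have h1 := hb.2
        rw [← union_sdiff_self_eq_union, card_union_of_disjoint disjoint_sdiff] at h1
        omega
      _ = (N a).card * c := by rw [sum_const, smul_eq_mul]
      _ ≤ (k * (L + c) + m) * c := Nat.mul_le_mul_right _ hNa
  calc V.card ≤ _ := card_le_card hsub
    _ ≤ ∑ a ∈ A, (vr a ∪ (N a).biUnion (fun b => vr b \ vr a)).card := card_biUnion_le
    _ ≤ ∑ a ∈ A, ((L + c) + (k * (L + c) + m) * c) := sum_le_sum hone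
    _ = A.card * ((L + c) + (k * (L + c) + m) * c) := by rw [sum_const, smul_eq_mul]
    _ ≤ k * (((1 + c) + (k * (1 + c) + m) * c) * (L + 1)) := by
      have h1 : L + c ≤ (1 + c) * (L + 1) := by nlinarith
      have h2 : m ≤ m * (L + 1) := by nlinarith
      apply Nat.mul_le_mul hAk
      calc (L + c) + (k * (L + c) + m) * c ≤
          (1 + c) * (L + 1) + (k * ((1 + c) * (L + 1)) + m * (L + 1)) * c := by gcongr
        _ = _ := by ring
    _ = _ := by ring

end Pool.Agent.Helper76.RK

namespace Pool.Agent.Helper76.RK.NEE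
open Pool.Agent.Helper92.RK
theorem main : S_NEE := nee
end Pool.Agent.Helper76.RK.NEE

namespace Pool.Agent.Helper76.RK.VSZ
open Pool.Agent.Helper92.RK
theorem main : S_VSZ := vsz
end Pool.Agent.Helper76.RK.VSZ
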